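import Pool.Agent.W8.LS.Stm

/-!
# Project LS: general gluing
-/

set_option autoImplicit false

open scoped Topology

namespace Pool.Agent.W962.LS

open Pool.Agent.W8.LS

theorem isOpen_glue {X Y J : Type} [TopologicalSpace Y] (U : J → Set Y) (f : J → Y → X)
    (hU : ∀ i, IsOpen (U i)) (S : Set X) :
    @IsOpen X (glueTop U f) S ↔ ∀ i, IsOpen (U i ∩ f i ⁻¹' S) := by
  unfold glueTop
  rw [isOpen_iSup_iff]
  refine forall_congr' fun i => ?_
  rw [isOpen_coinduced, (hU i).isOpenEmbedding_subtypeVal.isOpen_iff_image_isOpen]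
  have h : Subtype.val '' ((fun x : U i => f i x) ⁻¹' S) = U i ∩ f i ⁻¹' S := by
    ext y
    constructor
    · rintro ⟨x, hx, rfl⟩
      exact ⟨x.2, hx⟩
    · rintro ⟨h1, h2⟩
      exact ⟨⟨y, h1⟩, h2, rfl⟩
  rw [h]

theorem isOpen_img {X Y J : Type} [TopologicalSpace Y] (U : J → Set Y) (f : J → Y → X)
    (hU : ∀ i, IsOpen (U i))
    (ht : ∀ i j x y, x ∈ U i → y ∈ U j → f i x = f j y →
      ∃ τ : Y → Y, τ x = y ∧ ContinuousAt τ x ∧ ∀ᶠ z in 𝓝 x, f j (τ z) = f i z)
    (i : J) (W : Set Y) (hW : IsOpen W) (hWU : W ⊆ U i) :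
    @IsOpen X (glueTop U f) (f i '' W) := by
  rw [isOpen_glue U f hU]
  intro j
  rw [isOpen_iff_mem_nhds]
  rintro y ⟨hy, x, hx, hxy⟩
  obtain ⟨τ, h1, h2, h3⟩ := ht j i y x hy (hWU hx) hxy.symm
  have h4 : ∀ᶠ z in 𝓝 y, τ z ∈ W := h2 (by rw [h1]; exact hW.mem_nhds hx)
  have h5 : ∀ᶠ z in 𝓝 y, z ∈ U j := (hU j).mem_nhds hy
  filter_upwards [h3, h4, h5] with z k3 k4 k5
  exact ⟨k5, τ z, k4, k3⟩

theorem GlueHomeo_proof : GlueHomeo := by
  intro X Y J _ U f hU hinj ht hne
  letI : TopologicalSpace X := glueTop U f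
  intro i
  have hinv : ∀ x ∈ U i, Function.invFunOn (f i) (U i) (f i x) = x := fun x hx =>
    (hinj i).leftInvOn_invFunOn hx
  have hopen : ∀ W : Set Y, IsOpen W → W ⊆ U i → IsOpen (f i '' W) := fun W h1 h2 =>
    isOpen_img U f hU ht i W h1 h2
  refine ⟨{ toFun := Function.invFunOn (f i) (U i)
            invFun := f i
            source := f i '' U i
            target := U i
            map_source' := ?_
            map_target' := fun x hx => ⟨x, hx, rfl⟩
            left_inv' := ?_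
            right_inv' := hinv
            open_source := hopen _ (hU i) subset_rfl
            open_target := hU i
            continuousOn_toFun := ?_
            continuousOn_invFun := ?_ }, rfl, rfl, hinv, fun _ _ => rfl⟩
  · rintro _ ⟨x, hx, rfl⟩
    rw [hinv x hx]
    exact hx
  · rintro _ ⟨x, hx, rfl⟩
    rw [hinv x hx]
  · rw [continuousOn_open_iff (hopen _ (hU i) subset_rfl)]
    intro T hT
    have h : f i '' U i ∩ Function.invFunOn (f i) (U i) ⁻¹' T = f i '' (U i ∩ T) := by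
      ext z
      constructor
      · rintro ⟨⟨x, hx, rfl⟩, hz⟩
        rw [Set.mem_preimage, hinv x hx] at hz
        exact ⟨x, ⟨hx, hz⟩, rfl⟩
      · rintro ⟨x, ⟨hx, hxT⟩, rfl⟩
        refine ⟨⟨x, hx, rfl⟩, ?_⟩
        rw [Set.mem_preimage, hinv x hx]
        exact hxT
    rw [h]
    exact hopen _ ((hU i).inter hT) Set.inter_subset_left
  · rw [continuousOn_open_iff (hU i)]
    intro S hS
    exact (isOpen_glue U f hU S).mp hS i

end Pool.Agent.W962.LS
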